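import Pool.Agent.Helper34_Synd.Finite
import Pool.Agent.Helper34_Synd.Normal
import Pool.Agent.Helper34_Synd.Coarse

/-!
# MP_e6747d_al, linear groups: interfaces of the modules (table `lin`)
-/

set_option autoImplicit false

open Pool.Agent.Helper34_Synd

namespace Pool.Agent.Lin52

/-- D: a nonarchimedean real absolute value which is not `1` at a transcendental element. -/
def AbsStmt.{w} : Prop :=
  ∀ (F : Type w) [Field F] [IsAlgClosed F] (α : F), Transcendental (⊥ : Subfield F) α →
    ∃ v : AbsoluteValue F ℝ, IsNonarchimedean v ∧ v α ≠ 1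

/-- E: an irreducible group of matrices which is uncountable has an element with an eigenvalue
transcendental over the prime field. -/
def TrsStmt.{u, w} : Prop :=
  ∀ (G : Type u) [Group G] (F : Type w) [Field F] [IsAlgClosed F] (V : Type w) [AddCommGroup V]
    [Module F V] [FiniteDimensional F V] [Nontrivial V] (ρ : G →* Module.End F V),
    (∀ W : Submodule F V, (∀ g, ∀ x ∈ W, ρ g x ∈ W) → W = ⊥ ∨ W = ⊤) →
    ¬ (Set.range ρ).Countable →
    ∃ (g : G) (α : F), (ρ g).HasEigenvalue α ∧ Transcendental (⊥ : Subfield F) α

/-- C: an eigenvalue of absolute value different from `1` gives coarse windows. -/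
def EigStmt.{u, w} : Prop :=
  ∀ (G : Type u) [Group G] (F : Type w) [Field F] [IsAlgClosed F] (v : AbsoluteValue F ℝ)
    (V : Type w) [AddCommGroup V] [Module F V] [FiniteDimensional F V]
    (ρ : G →* Module.End F V) (g : G) (α : F),
    IsNonarchimedean v → (ρ g).HasEigenvalue α → v α ≠ 1 → CoarseWindows G

/-- A: abelian groups are amenable. -/
def AbeStmt.{u} : Prop :=
  ∀ (N : Type u) [Group N], (∀ a b : N, a * b = b * a) → Amenable N

/-- Q: arbitrarily large finite quotients. -/
def QuoStmt.{u} : Prop :=
  ∀ (G : Type u) [Group G], (∀ n : ℕ, ∃ K : Subgroup G, K.Normal ∧ K.FiniteIndex ∧ n ≤ K.index) →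
    Good G

/-- I: induction on the dimension: uncountable linear groups over algebraically closed fields. -/
def IndStmt.{u, w} : Prop :=
  ∀ (G : Type u) [Group G] (F : Type w) [Field F] [IsAlgClosed F] (V : Type w) [AddCommGroup V]
    [Module F V] [FiniteDimensional F V] (ρ : G →* Module.End F V),
    ¬ (Set.range ρ).Countable → Good G

/-- Z: the final statement: the finite-dimensional representations of `G` (over all fields of the
universe `w`) have arbitrarily large images. -/
def FinStmt.{u, w} : Prop :=
  ∀ (G : Type u) [Group G],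
    (∀ N : ℕ, ∃ (F : Type w) (_ : Field F) (n : ℕ) (ρ : G →* Matrix.GeneralLinearGroup (Fin n) F)
      (s : Finset G), N ≤ s.card ∧ Set.InjOn ρ s) →
    HasSyndeticSubmeasure G

end Pool.Agent.Lin52
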