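import Pool.Agent.Helper52_Lin.Growth

set_option autoImplicit false

open Module

namespace Pool.Agent.Lin52

section

variable {F V ι : Type*} [Field F] [AddCommGroup V] [Module F V] [Fintype ι]
  (v : AbsoluteValue F ℝ) (e : Basis ι F V)

theorem coe_restrict_pow (f : End F V) (V₁ : Submodule F V) (h : ∀ x ∈ V₁, f x ∈ V₁) (n : ℕ)
    (x : V₁) : (((f.restrict h) ^ n) x : V) = (f ^ n) (x : V) := by
  induction n with
  | zero => simp
  | succ n ih =>
    rw [pow_succ', pow_succ', Module.End.mul_apply, Module.End.mul_apply, ← ih]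
    rfl

theorem alt_asymp (f : End F V) (V₁ V₂ : Submodule F V) (hc : IsCompl V₁ V₂)
    (h₁ : ∀ x ∈ V₁, f x ∈ V₁) (a₁ a₂ : ℝ) (ha₂ : 0 < a₂) (ha : a₂ < a₁)
    (hg₁ : V₁ ≤ gr v e f a₁) (hg₂ : V₂ ≤ gr v e f a₂) {j : ℕ} (b : Basis (Fin j) F V₁)
    (A : V [⋀^Fin j]→ₗ[F] F) (x : Fin j → V) (ε : ℝ) (hε : 0 < ε) :
    ∃ N : ℕ, ∀ n, N ≤ n → v (A (fun i => (f ^ n) (x i)) -
      (LinearMap.det (f.restrict h₁)) ^ n * (A (fun i => (b i : V)) *
        b.det (fun i => V₁.projectionOnto V₂ hc (x i)))) ≤ ε * (a₁ ^ j) ^ n := by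
  classical
  have ha₁ : 0 < a₁ := ha₂.trans ha
  set p : Fin j → V₁ := fun i => V₁.projectionOnto V₂ hc (x i) with hp
  set q : Fin j → V₂ := fun i => V₂.projectionOnto V₁ hc.symm (x i) with hq
  have hpq : ∀ i, x i = (p i : V) + (q i : V) := by
    intro i
    have := Submodule.projection_add_projection_eq_self hc (x i)
    rw [← this]
    rfl
  choose C hC0 hC using fun i => (mem_gr v e).1 (hg₁ (p i).2)
  choose D hD0 hD using fun i => (mem_gr v e).1 (hg₂ (q i).2)
  obtain ⟨K, hK0, hK⟩ := multilinear_bound v e A.toMultilinearMap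
  -- the main term
  have hmain : ∀ n : ℕ, A (fun i => (f ^ n) (p i : V)) =
      (LinearMap.det (f.restrict h₁)) ^ n * (A (fun i => (b i : V)) * b.det p) := by
    intro n
    have h2 := congrArg (fun B : V₁ [⋀^Fin j]→ₗ[F] F => B (((f.restrict h₁) ^ n) ∘ p))
      ((A.compLinearMap V₁.subtype).eq_smul_basis_det b)
    simp only [AlternatingMap.compLinearMap_apply, AlternatingMap.smul_apply, smul_eq_mul,
      Module.Basis.det_comp, map_pow] at h2
    have h3 : (fun i => (f ^ n) (p i : V)) =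
        fun i => V₁.subtype ((⇑((f.restrict h₁) ^ n) ∘ p) i) := by
      funext i
      exact (coe_restrict_pow f V₁ h₁ n (p i)).symm
    rw [h3, h2]
    simp only [Submodule.subtype_apply]
    ring
  -- the error terms
  set W : ℝ := ∏ i, (C i + D i) with hW
  have hW0 : 0 ≤ W := Finset.prod_nonneg fun i _ => add_nonneg (hC0 i) (hD0 i)
  have herr : ∀ (n : ℕ) (S : Finset (Fin j)), S ≠ Finset.univ →
      v (A (S.piecewise (fun i => (f ^ n) (p i : V)) (fun i => (f ^ n) (q i : V)))) ≤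
        K * W * ((a₂ / a₁) ^ n * (a₁ ^ j) ^ n) := by
    intro n S hS
    obtain ⟨i₀, hi₀⟩ : ∃ i, i ∉ S := by
      by_contra hcon
      push Not at hcon
      exact hS (Finset.eq_univ_of_forall hcon)
    refine (hK _).trans ?_
    rw [mul_assoc]
    refine mul_le_mul_of_nonneg_left ?_ hK0
    have h4 : ∀ i, cn v e (S.piecewise (fun i => (f ^ n) (p i : V)) (fun i => (f ^ n) (q i : V)) i)
        ≤ (C i + D i) * (if i = i₀ then a₂ ^ n else a₁ ^ n) := by
      intro i
      by_cases hi : i ∈ S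
      · have hne : i ≠ i₀ := fun h => hi₀ (by rw [← h]; exact hi)
        rw [Finset.piecewise_eq_of_mem _ _ _ hi, if_neg hne]
        refine (hC i n).trans ?_
        exact mul_le_mul_of_nonneg_right (by linarith [hD0 i]) (by positivity)
      · rw [Finset.piecewise_eq_of_notMem _ _ _ hi]
        refine (hD i n).trans ?_
        have h5 : a₂ ^ n ≤ (if i = i₀ then a₂ ^ n else a₁ ^ n) := by
          split_ifs
          · exact le_rfl
          · exact pow_le_pow_left₀ ha₂.le ha.le n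
        have h6 : 0 ≤ a₂ ^ n := by positivity
        exact mul_le_mul (by linarith [hC0 i]) h5 h6 (add_nonneg (hC0 i) (hD0 i))
    refine (Finset.prod_le_prod (fun i _ => cn_nonneg v e _) fun i _ => h4 i).trans ?_
    rw [Finset.prod_mul_distrib]
    refine mul_le_mul_of_nonneg_left (le_of_eq ?_) hW0
    rw [← Finset.mul_prod_erase Finset.univ _ (Finset.mem_univ i₀), if_pos rfl]
    have h7 : ∏ i ∈ Finset.univ.erase i₀, (if i = i₀ then a₂ ^ n else a₁ ^ n) =
        (a₁ ^ n) ^ (j - 1) := by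
      rw [Finset.prod_congr rfl (g := fun _ => a₁ ^ n)
        (fun i hi => if_neg (Finset.ne_of_mem_erase hi)), Finset.prod_const,
        Finset.card_erase_of_mem (Finset.mem_univ _), Finset.card_univ, Fintype.card_fin]
    rw [h7, div_pow]
    have hj : 1 ≤ j := by
      have := i₀.2
      omega
    obtain ⟨j', rfl⟩ := Nat.exists_eq_add_of_le hj
    rw [Nat.add_sub_cancel_left]
    have h8 : a₁ ^ n ≠ 0 := (pow_pos ha₁ n).ne'
    rw [← pow_mul a₁ (1 + j') n, mul_comm (1 + j') n, pow_mul a₁ n (1 + j'), pow_add, pow_one]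
    field_simp
  -- convergence
  obtain ⟨N, hN⟩ : ∃ N : ℕ, ∀ n, N ≤ n → ((2 ^ j : ℕ) : ℝ) * (K * W) * (a₂ / a₁) ^ n ≤ ε := by
    have h9 : Filter.Tendsto (fun n : ℕ => ((2 ^ j : ℕ) : ℝ) * (K * W) * (a₂ / a₁) ^ n)
        Filter.atTop (nhds (((2 ^ j : ℕ) : ℝ) * (K * W) * 0)) := by
      refine Filter.Tendsto.const_mul _ ?_
      refine tendsto_pow_atTop_nhds_zero_of_lt_one (by positivity) ?_
      rw [div_lt_one ha₁]
      exact ha
    rw [mul_zero] at h9
    obtain ⟨N, hN⟩ := Filter.eventually_atTop.1 (h9.eventually (gt_mem_nhds hε))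
    exact ⟨N, fun n hn => (hN n hn).le⟩
  refine ⟨N, fun n hn => ?_⟩
  have hsum : A (fun i => (f ^ n) (x i)) = ∑ S : Finset (Fin j),
      A (S.piecewise (fun i => (f ^ n) (p i : V)) (fun i => (f ^ n) (q i : V))) := by
    rw [← A.map_add_univ]
    congr 1
    funext i
    rw [hpq i, map_add]
    rfl
  have huniv : (Finset.univ : Finset (Fin j)).piecewise (fun i => (f ^ n) (p i : V))
      (fun i => (f ^ n) (q i : V)) = fun i => (f ^ n) (p i : V) := by
    funext i
    exact Finset.piecewise_eq_of_mem _ _ _ (Finset.mem_univ i)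
  rw [hsum, ← Finset.add_sum_erase Finset.univ _ (Finset.mem_univ (Finset.univ : Finset (Fin j))),
    huniv, hmain, add_sub_cancel_left]
  refine (v.sum_le _ _).trans ?_
  have h10 : ∀ S ∈ (Finset.univ : Finset (Finset (Fin j))).erase Finset.univ,
      v (A (S.piecewise (fun i => (f ^ n) (p i : V)) (fun i => (f ^ n) (q i : V)))) ≤
        K * W * ((a₂ / a₁) ^ n * (a₁ ^ j) ^ n) :=
    fun S hS => herr n S (Finset.ne_of_mem_erase hS)
  refine (Finset.sum_le_sum h10).trans ?_
  rw [Finset.sum_const, nsmul_eq_mul]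
  have h11 : (((Finset.univ : Finset (Finset (Fin j))).erase Finset.univ).card : ℝ) ≤
      ((2 ^ j : ℕ) : ℝ) := by
    have : ((Finset.univ : Finset (Finset (Fin j))).erase Finset.univ).card ≤ 2 ^ j := by
      refine (Finset.card_erase_le).trans ?_
      rw [Finset.card_univ, Fintype.card_finset, Fintype.card_fin]
    exact_mod_cast this
  calc (((Finset.univ : Finset (Finset (Fin j))).erase Finset.univ).card : ℝ) *
        (K * W * ((a₂ / a₁) ^ n * (a₁ ^ j) ^ n))
      ≤ ((2 ^ j : ℕ) : ℝ) * (K * W * ((a₂ / a₁) ^ n * (a₁ ^ j) ^ n)) :=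
        mul_le_mul_of_nonneg_right h11 (by positivity)
    _ = (((2 ^ j : ℕ) : ℝ) * (K * W) * (a₂ / a₁) ^ n) * (a₁ ^ j) ^ n := by ring
    _ ≤ ε * (a₁ ^ j) ^ n := mul_le_mul_of_nonneg_right (hN n hn) (by positivity)

end

end Pool.Agent.Lin52
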