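import Mathlib

set_option autoImplicit false

namespace Pool.Agent.Lin52

/-- In a finite-dimensional space of functions spanned by functions `D t`, coordinates in a
suitable finite subfamily are controlled by the values at finitely many points. -/
theorem exists_coords {X T F : Type*} [Field F] (v : AbsoluteValue F ℝ) (D : T → X → F)
    (hE : FiniteDimensional F (Submodule.span F (Set.range D))) :
    ∃ (H : Finset T) (Y : Finset X) (K : ℝ), 0 ≤ K ∧
      ∀ u ∈ Submodule.span F (Set.range D), ∃ c : T → F,
        (∀ x, u x = ∑ h ∈ H, c h * D h x) ∧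
        ∀ ε : ℝ, 0 ≤ ε → (∀ x ∈ Y, v (u x) ≤ ε) → ∀ h ∈ H, v (c h) ≤ K * ε := by
  classical
  obtain ⟨b, hb1, hb2, hb3⟩ := exists_linearIndependent F (Set.range D)
  set E := Submodule.span F (Set.range D) with hEdef
  have hmem : ∀ t, D t ∈ E := fun t => Submodule.subset_span ⟨t, rfl⟩
  have hbE : ∀ x : b, (x : X → F) ∈ E := fun x => Submodule.subset_span (hb1 x.2)
  -- the basis
  have hli : LinearIndependent F (fun x : b => (⟨x, hbE x⟩ : E)) := by
    apply LinearIndependent.of_comp E.subtype
    exact hb3
  have hsp : ⊤ ≤ Submodule.span F (Set.range (fun x : b => (⟨x, hbE x⟩ : E))) := by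
    have h1 : Submodule.map E.subtype
        (Submodule.span F (Set.range (fun x : b => (⟨x, hbE x⟩ : E)))) = E := by
      rw [Submodule.map_span, ← Set.range_comp]
      have : (⇑E.subtype ∘ fun x : b => (⟨x, hbE x⟩ : E)) = ((↑) : b → (X → F)) := rfl
      rw [this, Subtype.range_coe, hb2]
    intro x _
    have h2 : (x : X → F) ∈ Submodule.map E.subtype
        (Submodule.span F (Set.range (fun x : b => (⟨x, hbE x⟩ : E)))) := by
      rw [h1]; exact x.2
    obtain ⟨y, hy, hy2⟩ := h2
    have : y = x := Subtype.ext hy2
    rwa [← this]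
  let B : Module.Basis b F E := Module.Basis.mk hli hsp
  have hfin : Finite b := Module.Finite.finite_basis B
  have hft : Fintype b := Fintype.ofFinite b
  -- evaluations
  let ev : X → Module.Dual F E := fun x => (LinearMap.proj x).comp E.subtype
  have hspan : Submodule.span F (Set.range ev) = ⊤ := by
    have h1 : (Submodule.span F (Set.range ev)).dualCoannihilator = ⊥ := by
      rw [eq_bot_iff]
      intro u hu
      rw [Submodule.mem_dualCoannihilator] at hu
      rw [Submodule.mem_bot]
      apply Subtype.ext
      funext x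
      exact hu (ev x) (Submodule.subset_span ⟨x, rfl⟩)
    have h2 := Subspace.finrank_add_finrank_dualCoannihilator_eq (Submodule.span F (Set.range ev))
    rw [h1, finrank_bot, add_zero, ← Subspace.dual_finrank_eq] at h2
    exact Submodule.eq_top_of_finrank_eq h2
  -- coordinates as combinations of evaluations
  have hco : ∀ i : b, ∃ c : X →₀ F, (c.sum fun x a => a • ev x) = B.coord i := by
    intro i
    have : B.coord i ∈ Submodule.span F (Set.range ev) := by rw [hspan]; trivial
    rwa [Finsupp.mem_span_range_iff_exists_finsupp] at this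
  choose c hc using hco
  choose t ht using fun i : b => hb1 i.2
  have htinj : Function.Injective t := by
    intro i j hij
    apply Subtype.ext
    rw [← ht i, ← ht j, hij]
  refine ⟨Finset.univ.image t, Finset.univ.biUnion fun i => (c i).support,
    ∑ i, ∑ x ∈ (c i).support, v (c i x), ?_, ?_⟩
  · exact Finset.sum_nonneg fun _ _ => Finset.sum_nonneg fun _ _ => v.nonneg _
  · intro u hu
    refine ⟨fun s => if h : ∃ i, t i = s then B.coord h.choose ⟨u, hu⟩ else 0, ?_, ?_⟩
    · intro x
      have h1 := congrArg (fun w : E => (w : X → F) x) (B.sum_repr ⟨u, hu⟩)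
      simp only at h1
      rw [Finset.sum_image (fun i _ j _ h => htinj h), ← h1]
      rw [AddSubmonoidClass.coe_finsetSum, Finset.sum_apply]
      refine Finset.sum_congr rfl fun i _ => ?_
      have h2 : ∃ j, t j = t i := ⟨i, rfl⟩
      have h3 : h2.choose = i := htinj h2.choose_spec
      beta_reduce
      rw [dif_pos h2, h3, ht]
      simp only [Submodule.coe_smul, Pi.smul_apply, smul_eq_mul, Module.Basis.coord_apply]
      congr 1
      simp only [B, Module.Basis.mk_apply]
    · intro ε hε hY s hs
      obtain ⟨i, _, rfl⟩ := Finset.mem_image.1 hs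
      have h2 : ∃ j, t j = t i := ⟨i, rfl⟩
      have h3 : h2.choose = i := htinj h2.choose_spec
      simp only
      rw [dif_pos h2, h3, ← hc i]
      have h4 : ((c i).sum fun x a => a • ev x) ⟨u, hu⟩ = ∑ x ∈ (c i).support, c i x * u x := by
        rw [Finsupp.sum, LinearMap.sum_apply]
        rfl
      rw [h4]
      refine (v.sum_le _ _).trans ?_
      have h5 : ∑ x ∈ (c i).support, v (c i x * u x) ≤ ∑ x ∈ (c i).support, v (c i x) * ε := by
        refine Finset.sum_le_sum fun x hx => ?_
        rw [map_mul]
        refine mul_le_mul_of_nonneg_left (hY x ?_) (v.nonneg _)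
        exact Finset.mem_biUnion.2 ⟨i, Finset.mem_univ _, hx⟩
      refine h5.trans ?_
      rw [← Finset.sum_mul]
      refine mul_le_mul_of_nonneg_right ?_ hε
      exact Finset.single_le_sum (f := fun i => ∑ x ∈ (c i).support, v (c i x))
        (fun _ _ => Finset.sum_nonneg fun _ _ => v.nonneg _) (Finset.mem_univ i)

end Pool.Agent.Lin52
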