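import Pool.Agent.Helper52_Lin.Stmts

set_option autoImplicit false

open Pool.Agent.Helper34_Synd

namespace Pool.Agent.Lin52

section

variable {G : Type*} [Group G] {F : Type*} [Field F] (v : AbsoluteValue F ℝ)
  (Δ : G → F) (H : Finset G)

/-- The norm of the function `Δ` translated: `max_{h ∈ H} |Δ (y h⁻¹)|`. -/
noncomputable def nrm (hne : H.Nonempty) (y : G) : ℝ := H.sup' hne (fun h => v (Δ (y * h⁻¹)))

theorem le_nrm (hne : H.Nonempty) (y : G) {h : G} (hh : h ∈ H) :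
    v (Δ (y * h⁻¹)) ≤ nrm v Δ H hne y :=
  Finset.le_sup' (fun h => v (Δ (y * h⁻¹))) hh

theorem nrm_nonneg (hne : H.Nonempty) (y : G) : 0 ≤ nrm v Δ H hne y := by
  obtain ⟨h, hh⟩ := hne
  exact (v.nonneg _).trans (le_nrm v Δ H ⟨h, hh⟩ y hh)

theorem exists_nrm (hne : H.Nonempty) (y : G) :
    ∃ h ∈ H, nrm v Δ H hne y = v (Δ (y * h⁻¹)) :=
  Finset.exists_mem_eq_sup' hne _

theorem sum_le_nrm (hne : H.Nonempty) (y : G) (c : G → F) :
    v (∑ h ∈ H, c h * Δ (y * h⁻¹)) ≤ (∑ h ∈ H, v (c h)) * nrm v Δ H hne y := by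
  refine (v.sum_le _ _).trans ?_
  rw [Finset.sum_mul]
  refine Finset.sum_le_sum fun h hh => ?_
  rw [map_mul]
  exact mul_le_mul_of_nonneg_left (le_nrm v Δ H hne y hh) (v.nonneg _)

theorem nrm_pos (hne : H.Nonempty) (hΔ1 : Δ 1 = 1)
    (hspan : ∀ t : G, ∃ c : G → F, ∀ y, Δ (y * t) = ∑ h ∈ H, c h * Δ (y * h⁻¹)) (y : G) :
    0 < nrm v Δ H hne y := by
  obtain ⟨c, hc⟩ := hspan y⁻¹
  have h1 := hc y
  rw [mul_inv_cancel, hΔ1] at h1
  have h2 := sum_le_nrm v Δ H hne y c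
  rw [← h1, map_one] at h2
  by_contra hcon
  have h3 : nrm v Δ H hne y = 0 := le_antisymm (not_lt.1 hcon) (nrm_nonneg v Δ H hne y)
  rw [h3, mul_zero] at h2
  linarith

theorem nrm_mul_le (hne : H.Nonempty)
    (hspan : ∀ t : G, ∃ c : G → F, ∀ y, Δ (y * t) = ∑ h ∈ H, c h * Δ (y * h⁻¹)) (t : G) :
    ∃ C : ℝ, 0 ≤ C ∧ ∀ y, nrm v Δ H hne (y * t) ≤ C * nrm v Δ H hne y := by
  choose c hc using hspan
  refine ⟨∑ k ∈ H, ∑ h ∈ H, v (c (t * k⁻¹) h), ?_, ?_⟩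
  · exact Finset.sum_nonneg fun _ _ => Finset.sum_nonneg fun _ _ => v.nonneg _
  · intro y
    obtain ⟨k, hk, hk2⟩ := exists_nrm v Δ H hne (y * t)
    rw [hk2, mul_assoc, hc]
    refine (sum_le_nrm v Δ H hne y _).trans ?_
    refine mul_le_mul_of_nonneg_right ?_ (nrm_nonneg v Δ H hne y)
    exact Finset.single_le_sum (f := fun k => ∑ h ∈ H, v (c (t * k⁻¹) h))
      (fun _ _ => Finset.sum_nonneg fun _ _ => v.nonneg _) hk

/-- A proximal matrix coefficient gives coarse windows. -/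
theorem coarseWindows_of_proximal (γ : G) (μ : F) (hμ : 1 < v μ) (hΔ1 : Δ 1 = 1)
    (hspan : ∀ t : G, ∃ c : G → F, ∀ y, Δ (y * t) = ∑ h ∈ H, c h * Δ (y * h⁻¹))
    (hprox : ∀ t : G, ∀ ε : ℝ, 0 < ε → ∃ N : ℕ, ∀ n, N ≤ n → ∃ c : G → F,
      (∀ h ∈ H, v (c h) ≤ ε) ∧
      ∀ y, Δ (y * γ ^ n * t) = μ ^ n * (Δ y * Δ t + ∑ h ∈ H, c h * Δ (y * h⁻¹))) :
    CoarseWindows G := by
  classical
  have hne : H.Nonempty := by
    by_contra hcon
    rw [Finset.not_nonempty_iff_eq_empty] at hcon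
    obtain ⟨c, hc⟩ := hspan 1
    have := hc 1
    rw [hcon, Finset.sum_empty, mul_one, hΔ1] at this
    exact one_ne_zero this
  have hpos := nrm_pos v Δ H hne hΔ1 hspan
  choose C hC0 hC using nrm_mul_le v Δ H hne hspan
  set CH : ℝ := ∑ h ∈ H, C h⁻¹ with hCH
  have hCH0 : 0 ≤ CH := Finset.sum_nonneg fun _ _ => hC0 _
  have hCle : ∀ h ∈ H, C h⁻¹ ≤ CH := fun h hh =>
    Finset.single_le_sum (f := fun h => C h⁻¹) (fun _ _ => hC0 _) hh
  have hlog : 0 < Real.log (v μ) := Real.log_pos hμ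
  have hμ0 : 0 < v μ := by linarith
  refine ⟨fun x => Real.log (nrm v Δ H hne x⁻¹) / Real.log (v μ),
    Real.log 2 / Real.log (v μ), fun S M => ?_⟩
  -- the error level
  obtain ⟨ε, hε0, hε⟩ : ∃ ε : ℝ, 0 < ε ∧ ∀ s ∈ S, (H.card * ε) * CH ≤ nrm v Δ H hne s / 2 := by
    have h1 : ∀ s ∈ S, ∃ ε : ℝ, 0 < ε ∧ (H.card * ε) * CH ≤ nrm v Δ H hne s / 2 := by
      intro s _
      have h2 : (0 : ℝ) ≤ H.card * CH := by positivity
      refine ⟨nrm v Δ H hne s / 2 / (H.card * CH + 1), ?_, ?_⟩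
      · exact div_pos (half_pos (hpos s)) (by linarith)
      · have h3 : (H.card : ℝ) * (nrm v Δ H hne s / 2 / (H.card * CH + 1)) * CH =
            (nrm v Δ H hne s / 2) * (H.card * CH / (H.card * CH + 1)) := by
          ring
        rw [h3]
        apply mul_le_of_le_one_right (half_pos (hpos s)).le
        rw [div_le_one (by linarith)]
        linarith
    choose! e he0 he using h1
    rcases S.eq_empty_or_nonempty with rfl | hS
    · exact ⟨1, one_pos, by simp⟩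
    · refine ⟨S.inf' hS e, ?_, ?_⟩
      · rw [Finset.lt_inf'_iff]
        exact he0
      · intro s hs
        refine le_trans ?_ (he s hs)
        have h4 : S.inf' hS e ≤ e s := Finset.inf'_le e hs
        gcongr
  -- the starting time
  obtain ⟨n₀, hn₀⟩ : ∃ n₀ : ℕ, ∀ s ∈ S, ∀ k ∈ H, ∀ n, n₀ ≤ n → ∃ c : G → F,
      (∀ h ∈ H, v (c h) ≤ ε) ∧ ∀ y, Δ (y * γ ^ n * (s * k⁻¹)) =
        μ ^ n * (Δ y * Δ (s * k⁻¹) + ∑ h ∈ H, c h * Δ (y * h⁻¹)) := by
    choose N hN using fun t => hprox t ε hε0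
    refine ⟨(S ×ˢ H).sup fun p => N (p.1 * p.2⁻¹), fun s hs k hk n hn => ?_⟩
    refine hN (s * k⁻¹) n (le_trans ?_ hn)
    exact Finset.le_sup (f := fun p : G × G => N (p.1 * p.2⁻¹)) (Finset.mk_mem_product hs hk)
  refine ⟨H.card, fun j m => (γ ^ (n₀ + m))⁻¹ * (H.equivFin.symm j : G), fun y => ?_⟩
  obtain ⟨h, hh, hmax⟩ := exists_nrm v Δ H hne y⁻¹
  refine ⟨H.equivFin ⟨h, hh⟩, fun s hs => ?_⟩
  set y' : G := y⁻¹ * h⁻¹ with hy'
  have hy'pos : 0 < v (Δ y') := by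
    rw [hy', ← hmax]
    exact hpos _
  have hs0 := hpos s
  refine ⟨1, n₀ + Real.log (v (Δ y') * nrm v Δ H hne s) / Real.log (v μ), Or.inl rfl,
    fun m _ => ?_⟩
  have hx : (s⁻¹ * ((γ ^ (n₀ + m))⁻¹ * (H.equivFin.symm (H.equivFin ⟨h, hh⟩) : G) * y))⁻¹ =
      y' * γ ^ (n₀ + m) * s := by
    rw [Equiv.symm_apply_apply, hy']
    group
  beta_reduce
  rw [hx]
  set n := n₀ + m with hn
  -- the error term
  have herr : ∀ k ∈ H, ∃ e : F, v e ≤ v (Δ y') * (nrm v Δ H hne s / 2) ∧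
      Δ (y' * γ ^ n * s * k⁻¹) = μ ^ n * (Δ y' * Δ (s * k⁻¹) + e) := by
    intro k hk
    obtain ⟨c, hc1, hc2⟩ := hn₀ s hs k hk n (Nat.le_add_right _ _)
    refine ⟨_, ?_, by rw [mul_assoc]; exact hc2 y'⟩
    refine (sum_le_nrm v Δ H hne y' c).trans ?_
    have h1 : ∑ h ∈ H, v (c h) ≤ H.card * ε := by
      refine (Finset.sum_le_sum hc1).trans ?_
      rw [Finset.sum_const, nsmul_eq_mul]
    have h2 : nrm v Δ H hne y' ≤ CH * v (Δ y') := by
      rw [hy']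
      refine (hC h⁻¹ y⁻¹).trans ?_
      rw [hmax]
      exact mul_le_mul_of_nonneg_right (hCle h hh) (v.nonneg _)
    calc (∑ h ∈ H, v (c h)) * nrm v Δ H hne y' ≤ (H.card * ε) * (CH * v (Δ y')) :=
          mul_le_mul h1 h2 (nrm_nonneg _ _ _ _ _) (by positivity)
      _ = v (Δ y') * ((H.card * ε) * CH) := by ring
      _ ≤ _ := mul_le_mul_of_nonneg_left (hε s hs) (v.nonneg _)
  have hup : nrm v Δ H hne (y' * γ ^ n * s) ≤ 2 * (v μ ^ n * (v (Δ y') * nrm v Δ H hne s)) := by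
    obtain ⟨k, hk, hk2⟩ := exists_nrm v Δ H hne (y' * γ ^ n * s)
    obtain ⟨e, he1, he2⟩ := herr k hk
    rw [hk2, he2, map_mul, map_pow]
    have h1 : v (Δ y' * Δ (s * k⁻¹) + e) ≤ 2 * (v (Δ y') * nrm v Δ H hne s) := by
      refine (v.add_le _ _).trans ?_
      rw [map_mul]
      have h2 := mul_le_mul_of_nonneg_left (le_nrm v Δ H hne s hk) hy'pos.le
      nlinarith [mul_pos hy'pos hs0]
    calc v μ ^ n * v (Δ y' * Δ (s * k⁻¹) + e)
        ≤ v μ ^ n * (2 * (v (Δ y') * nrm v Δ H hne s)) :=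
          mul_le_mul_of_nonneg_left h1 (by positivity)
      _ = _ := by ring
  have hlow : v μ ^ n * (v (Δ y') * nrm v Δ H hne s) ≤ 2 * nrm v Δ H hne (y' * γ ^ n * s) := by
    obtain ⟨k, hk, hk2⟩ := exists_nrm v Δ H hne s
    obtain ⟨e, he1, he2⟩ := herr k hk
    have h1 := le_nrm v Δ H hne (y' * γ ^ n * s) hk
    rw [he2, map_mul, map_pow] at h1
    have h2 : v (Δ y') * nrm v Δ H hne s ≤ 2 * v (Δ y' * Δ (s * k⁻¹) + e) := by
      have h3 := v.add_le (Δ y' * Δ (s * k⁻¹) + e) (-e)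
      rw [add_neg_cancel_right, v.map_neg, map_mul, ← hk2] at h3
      linarith
    calc v μ ^ n * (v (Δ y') * nrm v Δ H hne s)
        ≤ v μ ^ n * (2 * v (Δ y' * Δ (s * k⁻¹) + e)) :=
          mul_le_mul_of_nonneg_left h2 (by positivity)
      _ = 2 * (v μ ^ n * v (Δ y' * Δ (s * k⁻¹) + e)) := by ring
      _ ≤ _ := by linarith
  -- logarithms
  have hP : 0 < v (Δ y') * nrm v Δ H hne s := mul_pos hy'pos hs0
  have hQ : 0 < v μ ^ n * (v (Δ y') * nrm v Δ H hne s) := by positivity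
  have hR : 0 < nrm v Δ H hne (y' * γ ^ n * s) := hpos _
  have l1 := Real.log_le_log hR hup
  have l2 := Real.log_le_log hQ hlow
  rw [Real.log_mul two_ne_zero hQ.ne'] at l1
  rw [Real.log_mul two_ne_zero hR.ne'] at l2
  rw [Real.log_mul (by positivity) hP.ne', Real.log_pow] at l1 l2
  have e1 : Real.log (nrm v Δ H hne (y' * γ ^ n * s)) / Real.log (v μ) -
      (n₀ + Real.log (v (Δ y') * nrm v Δ H hne s) / Real.log (v μ) + ((1 : ℤ) : ℝ) * m) =
      (Real.log (nrm v Δ H hne (y' * γ ^ n * s)) -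
        (n * Real.log (v μ) + Real.log (v (Δ y') * nrm v Δ H hne s))) / Real.log (v μ) := by
    rw [hn]
    field_simp
    push_cast
    ring
  rw [e1, abs_div, abs_of_pos hlog]
  apply div_le_div_of_nonneg_right _ hlog.le
  rw [abs_le]
  constructor <;> linarith

end

end Pool.Agent.Lin52
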