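import Pool.Agent.Helper52_Lin.Growth

set_option autoImplicit false

open Module

namespace Pool.Agent.Lin52

theorem abs_multiset_prod_le_one {F : Type*} [Field F] (v : AbsoluteValue F ℝ) (s : Multiset F)
    (h : ∀ x ∈ s, v x ≤ 1) : v s.prod ≤ 1 := by
  induction s using Multiset.induction_on with
  | empty => simp
  | cons a s ih =>
    rw [Multiset.prod_cons, map_mul]
    exact mul_le_one₀ (h a (Multiset.mem_cons_self _ _)) (v.nonneg _)
      (ih fun x hx => h x (Multiset.mem_cons_of_mem hx))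

theorem abs_multiset_prod_eq {F : Type*} [Field F] (v : AbsoluteValue F ℝ) (a : ℝ)
    (s : Multiset F) (h : ∀ x ∈ s, v x = a) : v s.prod = a ^ s.card := by
  induction s using Multiset.induction_on with
  | empty => simp
  | cons b s ih =>
    rw [Multiset.prod_cons, map_mul, Multiset.card_cons, pow_succ, mul_comm,
      h b (Multiset.mem_cons_self _ _), ih fun x hx => h x (Multiset.mem_cons_of_mem hx)]

section

variable {F V ι : Type*} [Field F] [IsAlgClosed F] [AddCommGroup V] [Module F V]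
  [FiniteDimensional F V] [Fintype ι] (v : AbsoluteValue F ℝ) (e : Basis ι F V)

theorem maxGen_eq_bot {f : End F V} {β : F} (h : ¬ f.HasEigenvalue β) :
    f.maxGenEigenspace β = ⊥ := by
  rw [eq_bot_iff]
  intro x hx
  rw [Module.End.mem_maxGenEigenspace] at hx
  obtain ⟨k, hk⟩ := hx
  induction k with
  | zero => simpa using hk
  | succ k ih =>
    apply ih
    rw [pow_succ', Module.End.mul_apply, LinearMap.sub_apply, sub_eq_zero] at hk
    by_contra hne
    apply h
    apply Module.End.hasEigenvalue_of_hasEigenvector (x := ((f - β • 1) ^ k) x)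
    refine ⟨?_, hne⟩
    rw [Module.End.mem_eigenspace_iff]
    simpa using hk

theorem exists_split (hv : IsNonarchimedean v) (f : End F V) (α : F) (hα : f.HasEigenvalue α)
    (hα1 : v α ≠ 1) (hdet : v (LinearMap.det f) = 1) :
    ∃ (V₁ V₂ : Submodule F V) (a₁ a₂ : ℝ) (h₁ : ∀ x ∈ V₁, f x ∈ V₁), IsCompl V₁ V₂ ∧
      (∀ x ∈ V₂, f x ∈ V₂) ∧ 1 < a₁ ∧ 0 < a₂ ∧ a₂ < a₁ ∧ V₁ ≤ gr v e f a₁ ∧ V₂ ≤ gr v e f a₂ ∧
      0 < finrank F V₁ ∧ v (LinearMap.det (f.restrict h₁)) = a₁ ^ finrank F V₁ := by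
  classical
  have hcp : f.charpoly ≠ 0 := f.charpoly_monic.ne_zero
  set E : Finset F := f.charpoly.roots.toFinset with hE
  have hmemE : ∀ β, β ∈ E ↔ f.HasEigenvalue β := by
    intro β
    rw [hE, Multiset.mem_toFinset, Polynomial.mem_roots hcp,
      Module.End.hasEigenvalue_iff_isRoot_charpoly]
  have hEne : E.Nonempty := ⟨α, (hmemE α).2 hα⟩
  obtain ⟨β₁, hβ₁, hmax⟩ := E.exists_max_image v hEne
  set a₁ := v β₁ with ha₁
  have hle : ∀ β, f.HasEigenvalue β → v β ≤ a₁ := fun β hβ => hmax β ((hmemE β).2 hβ)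
  have h1a : 1 < a₁ := by
    by_contra hcon
    rw [not_lt] at hcon
    have hαm : α ∈ f.charpoly.roots := by
      rw [← Multiset.mem_toFinset, ← hE]
      exact (hmemE α).2 hα
    obtain ⟨R, hR⟩ := Multiset.exists_cons_of_mem hαm
    have h2 := Module.End.det_eq_prod_roots_charpoly_of_splits (f := f)
      (IsAlgClosed.splits f.charpoly)
    rw [hR, Multiset.prod_cons] at h2
    rw [h2, map_mul] at hdet
    have h3 : v R.prod ≤ 1 := by
      apply abs_multiset_prod_le_one
      intro x hx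
      refine (hle x ?_).trans hcon
      rw [← hmemE, hE, Multiset.mem_toFinset, hR]
      exact Multiset.mem_cons_of_mem hx
    have h4 : v α < 1 := lt_of_le_of_ne ((hle α hα).trans hcon) hα1
    have h5 : v α * v R.prod < 1 := by
      calc v α * v R.prod ≤ v α * 1 := mul_le_mul_of_nonneg_left h3 (v.nonneg _)
        _ < 1 := by rw [mul_one]; exact h4
    linarith
  obtain ⟨a₂, ha₂0, ha₂1, ha₂⟩ : ∃ a₂ : ℝ, 0 < a₂ ∧ a₂ < a₁ ∧
      ∀ β, f.HasEigenvalue β → v β ≠ a₁ → v β ≤ a₂ := by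
    set E' := E.filter fun β => v β ≠ a₁ with hE'
    rcases E'.eq_empty_or_nonempty with h0 | h0
    · refine ⟨a₁ / 2, by linarith, by linarith, fun β hβ hβ1 => ?_⟩
      have : β ∈ E' := Finset.mem_filter.2 ⟨(hmemE β).2 hβ, hβ1⟩
      rw [h0] at this
      simp at this
    · obtain ⟨β₂, hβ₂, hmax₂⟩ := E'.exists_max_image v h0
      rw [hE', Finset.mem_filter] at hβ₂
      have h6 : v β₂ < a₁ := lt_of_le_of_ne (hle β₂ ((hmemE β₂).1 hβ₂.1)) hβ₂.2
      refine ⟨max (v β₂) (a₁ / 2), lt_max_of_lt_right (by linarith), max_lt h6 (by linarith),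
        fun β hβ hβ1 => ?_⟩
      exact le_max_of_le_left (hmax₂ β (Finset.mem_filter.2 ⟨(hmemE β).2 hβ, hβ1⟩))
  set V₁ : Submodule F V := ⨆ β ∈ {β : F | v β = a₁}, f.maxGenEigenspace β with hV₁
  set V₂ : Submodule F V := ⨆ β ∈ {β : F | v β ≠ a₁}, f.maxGenEigenspace β with hV₂
  have hinv : ∀ (P : Set F) (x : V), x ∈ ⨆ β ∈ P, f.maxGenEigenspace β →
      f x ∈ ⨆ β ∈ P, f.maxGenEigenspace β := by
    intro P
    have h7 : Submodule.map f (⨆ β ∈ P, f.maxGenEigenspace β) ≤ ⨆ β ∈ P, f.maxGenEigenspace β := by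
      simp_rw [Submodule.map_iSup]
      refine iSup₂_mono fun β _ => ?_
      rintro _ ⟨x, hx, rfl⟩
      exact Module.End.mapsTo_maxGenEigenspace_of_comm (Commute.refl f) β hx
    exact fun x hx => h7 (Submodule.mem_map_of_mem hx)
  have hdisj : Disjoint V₁ V₂ := by
    have h8 := f.independent_maxGenEigenspace
    apply iSupIndep.disjoint_biSup_biSup h8
    rw [Set.disjoint_left]
    intro β h9 h10
    exact h10 h9
  have hsup : V₁ ⊔ V₂ = ⊤ := by
    rw [eq_top_iff, ← Module.End.iSup_maxGenEigenspace_eq_top f]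
    refine iSup_le fun β => ?_
    by_cases h11 : v β = a₁
    · refine le_trans ?_ le_sup_left
      exact le_iSup₂_of_le β h11 le_rfl
    · refine le_trans ?_ le_sup_right
      exact le_iSup₂_of_le β h11 le_rfl
  have hV₁gr : V₁ ≤ gr v e f a₁ := by
    refine iSup₂_le fun β hβ => ?_
    exact maxGenEigenspace_le_gr v e hv f β a₁ (by linarith) (le_of_eq hβ)
  have hV₂gr : V₂ ≤ gr v e f a₂ := by
    refine iSup₂_le fun β hβ => ?_
    by_cases h12 : f.HasEigenvalue β
    · exact maxGenEigenspace_le_gr v e hv f β a₂ ha₂0 (ha₂ β h12 hβ)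
    · rw [maxGen_eq_bot h12]
      exact bot_le
  have hne : 0 < finrank F V₁ := by
    rw [finrank_pos_iff, Submodule.nontrivial_iff_ne_bot]
    intro h13
    have h14 : f.maxGenEigenspace β₁ ≤ V₁ := le_iSup₂_of_le β₁ rfl le_rfl
    obtain ⟨x, hx⟩ := ((hmemE β₁).1 hβ₁).exists_hasEigenvector
    have h15 := h14 (Module.End.eigenspace_le_maxGenEigenspace hx.1)
    rw [h13, Submodule.mem_bot] at h15
    exact hx.2 h15
  refine ⟨V₁, V₂, a₁, a₂, hinv _, ⟨hdisj, codisjoint_iff.2 hsup⟩, hinv _, h1a, ha₂0, ha₂1,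
    hV₁gr, hV₂gr, hne, ?_⟩
  rw [Module.End.det_eq_prod_roots_charpoly_of_splits (IsAlgClosed.splits _),
    abs_multiset_prod_eq v a₁]
  · congr 1
    rw [← LinearMap.charpoly_natDegree (f.restrict (hinv _ : ∀ x ∈ V₁, f x ∈ V₁))]
    exact (IsAlgClosed.splits _).natDegree_eq_card_roots.symm
  · intro β hβ
    rw [Polynomial.mem_roots (LinearMap.charpoly_monic _).ne_zero,
      ← Module.End.hasEigenvalue_iff_isRoot_charpoly] at hβ
    obtain ⟨x, hx⟩ := hβ.exists_hasEigenvector
    have hx1 : f (x : V) = β • (x : V) := by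
      have := Module.End.mem_eigenspace_iff.1 hx.1
      exact congrArg Subtype.val this
    have hx0 : (x : V) ≠ 0 := fun h => hx.2 (Subtype.ext h)
    by_contra hβ1
    have h16 : (x : V) ∈ V₂ := by
      have h17 : f.maxGenEigenspace β ≤ V₂ := le_iSup₂_of_le β hβ1 le_rfl
      exact h17 (Module.End.eigenspace_le_maxGenEigenspace (Module.End.mem_eigenspace_iff.2 hx1))
    exact hx0 ((Submodule.disjoint_def.1 hdisj) _ x.2 h16)

end

end Pool.Agent.Lin52
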