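import Pool.Agent.Helper34_Synd.Hyp
import Pool.Agent.Helper52_Lin.Prox
import Pool.Agent.Helper52_Lin.FunSpace
import Pool.Agent.Helper52_Lin.Split
import Pool.Agent.Helper52_Lin.Asymp

set_option autoImplicit false

open Module Pool.Agent.Helper34_Synd

namespace Pool.Agent.Lin52

/-- functions of the form `y ↦ b.det (π (ρ y x))` span a finite-dimensional space -/
theorem finiteDimensional_span {G F V I : Type*} [Field F] [AddCommGroup V] [Module F V]
    [FiniteDimensional F V] {j : ℕ} (A : G → MultilinearMap F (fun _ : Fin j => V) F)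
    (x : I → Fin j → V) :
    FiniteDimensional F (Submodule.span F (Set.range fun (t : I) (y : G) => A y (x t))) := by
  let Λ : Module.Dual F (MultilinearMap F (fun _ : Fin j => V) F) →ₗ[F] (G → F) :=
    { toFun := fun ξ y => ξ (A y)
      map_add' := fun _ _ => rfl
      map_smul' := fun _ _ => rfl }
  have h1 : Submodule.span F (Set.range fun (t : I) (y : G) => A y (x t)) ≤ LinearMap.range Λ := by
    rw [Submodule.span_le]
    rintro _ ⟨t, rfl⟩
    let ξ : Module.Dual F (MultilinearMap F (fun _ : Fin j => V) F) :=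
      { toFun := fun B => B (x t)
        map_add' := fun _ _ => rfl
        map_smul' := fun _ _ => rfl }
    exact ⟨ξ, rfl⟩
  exact Submodule.finiteDimensional_of_le h1

theorem c.{u, w} : EigStmt.{u, w} := by
  intro G _ F _ _ v V _ _ _ ρ g α hv hα hα1
  classical
  have hinv : ∀ y : G, ρ y * ρ y⁻¹ = 1 := fun y => by rw [← map_mul, mul_inv_cancel, map_one]
  have hdpos : ∀ y : G, 0 < v (LinearMap.det (ρ y)) := by
    intro y
    refine v.pos ?_
    intro h0
    have h1 := congrArg LinearMap.det (hinv y)
    rw [map_mul, h0, zero_mul, map_one] at h1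
    exact zero_ne_one h1
  by_cases hdet : ∃ x : G, v (LinearMap.det (ρ x)) ≠ 1
  · obtain ⟨x, hx⟩ := hdet
    refine coarseWindows_of_quasimorphism (fun y => Real.log (v (LinearMap.det (ρ y)))) 0 ?_ ?_
    · intro a b
      rw [map_mul, map_mul, map_mul, Real.log_mul (hdpos a).ne' (hdpos b).ne']
      simp
    · intro C
      have h2 : Real.log (v (LinearMap.det (ρ x))) ≠ 0 := by
        intro h3
        rcases Real.log_eq_zero.1 h3 with h4 | h4 | h4
        · exact (hdpos x).ne' h4
        · exact hx h4
        · linarith [hdpos x]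
      obtain ⟨k, hk⟩ := exists_nat_gt (C / |Real.log (v (LinearMap.det (ρ x)))|)
      refine ⟨x ^ k, ?_⟩
      have h5 : 0 < |Real.log (v (LinearMap.det (ρ x)))| := abs_pos.2 h2
      rw [div_lt_iff₀ h5] at hk
      rw [map_pow, map_pow, map_pow, Real.log_pow, abs_mul, Nat.abs_cast]
      exact hk
  · push Not at hdet
    set f := ρ g with hf
    let e := Module.finBasis F V
    obtain ⟨V₁, V₂, a₁, a₂, h₁, hc, h₂, ha₁, ha₂, ha, hg₁, hg₂, hpos, hμ⟩ :=
      exists_split v e hv f α hα hα1 (hdet g)
    set j := finrank F V₁ with hj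
    let b : Basis (Fin j) F V₁ := Module.finBasis F V₁
    let π : V →ₗ[F] V₁ := V₁.projectionOnto V₂ hc
    set μ := LinearMap.det (f.restrict h₁) with hμdef
    have hμ1 : 1 < v μ := by
      rw [hμ]
      exact one_lt_pow₀ ha₁ hpos.ne'
    have hμ0 : μ ≠ 0 := by
      intro h0
      rw [h0, map_zero] at hμ1
      linarith
    let A : G → V [⋀^Fin j]→ₗ[F] F := fun y => b.det.compLinearMap (π ∘ₗ (ρ y))
    have hA : ∀ (y : G) (x : Fin j → V), A y x = b.det (fun i => π (ρ y (x i))) := fun _ _ => rfl
    let Δ : G → F := fun y => A y (fun i => (b i : V))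
    have hΔt : ∀ y t : G, Δ (y * t) = A y (fun i => ρ t (b i)) := by
      intro y t
      change A (y * t) _ = _
      rw [hA, hA, map_mul]
      rfl
    have hπ : ∀ x : V₁, π (x : V) = x := fun x => Submodule.projectionOnto_apply_left hc x
    have hΔ1 : Δ 1 = 1 := by
      change A 1 _ = 1
      rw [hA, map_one]
      simp only [Module.End.one_apply, hπ]
      exact b.det_self
    have hfd : FiniteDimensional F (Submodule.span F (Set.range fun (t : G) (y : G) =>
        Δ (y * t))) := by
      have := finiteDimensional_span (fun y => (A y).toMultilinearMap)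
        (fun (t : G) (i : Fin j) => ρ t (b i))
      have h3 : (fun (t : G) (y : G) => Δ (y * t)) =
          fun (t : G) (y : G) => (A y).toMultilinearMap (fun i => ρ t (b i)) := by
        funext t y
        exact hΔt y t
      rw [h3]
      exact this
    obtain ⟨H', Y, K, hK, hcoord⟩ := exists_coords v (fun (t : G) (y : G) => Δ (y * t)) hfd
    -- pass to inverses
    set H : Finset G := H'.image (fun h => h⁻¹) with hH
    have hsumH : ∀ (c : G → F) (y : G), ∑ h ∈ H', c h * Δ (y * h) =
        ∑ h ∈ H, c h⁻¹ * Δ (y * h⁻¹) := by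
      intro c y
      rw [hH, Finset.sum_image (fun a _ b _ h => inv_injective h)]
      simp only [inv_inv]
    refine coarseWindows_of_proximal v Δ H g μ hμ1 hΔ1 ?_ ?_
    · intro t
      obtain ⟨c, hc1, _⟩ := hcoord (fun y => Δ (y * t)) (Submodule.subset_span ⟨t, rfl⟩)
      exact ⟨fun h => c h⁻¹, fun y => by rw [hc1 y, hsumH]⟩
    · intro t ε hε
      -- pointwise convergence
      have hpt : ∀ y : G, ∃ N : ℕ, ∀ n, N ≤ n →
          v (Δ (y * g ^ n * t) - μ ^ n * (Δ y * Δ t)) ≤ (ε / (K + 1)) * (v μ) ^ n := by
        intro y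
        obtain ⟨N, hN⟩ := alt_asymp v e f V₁ V₂ hc h₁ a₁ a₂ ha₂ ha hg₁ hg₂ b (A y)
          (fun i => ρ t (b i)) (ε / (K + 1)) (by positivity)
        refine ⟨N, fun n hn => ?_⟩
        have h6 := hN n hn
        rw [← hμ] at h6
        have h7 : Δ (y * g ^ n * t) = A y (fun i => (f ^ n) (ρ t (b i))) := by
          rw [mul_assoc, hΔt]
          congr 1
          funext i
          rw [map_mul, map_pow]
          rfl
        rw [h7]
        exact h6
      choose N hN using hpt
      refine ⟨Y.sup N, fun n hn => ?_⟩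
      have hmem : (fun y => μ⁻¹ ^ n * Δ (y * g ^ n * t) - Δ y * Δ t) ∈
          Submodule.span F (Set.range fun (t : G) (y : G) => Δ (y * t)) := by
        have h8 : (fun y => μ⁻¹ ^ n * Δ (y * g ^ n * t) - Δ y * Δ t) =
            μ⁻¹ ^ n • (fun y => Δ (y * (g ^ n * t))) - Δ t • (fun y => Δ (y * 1)) := by
          funext y
          simp only [Pi.sub_apply, Pi.smul_apply, smul_eq_mul, mul_one, mul_assoc]
          ring
        rw [h8]
        exact Submodule.sub_mem _
          (Submodule.smul_mem _ _ (Submodule.subset_span ⟨g ^ n * t, rfl⟩))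
          (Submodule.smul_mem _ _ (Submodule.subset_span ⟨1, rfl⟩))
      obtain ⟨c, hc1, hc2⟩ := hcoord _ hmem
      have hμn : μ ^ n ≠ 0 := pow_ne_zero n hμ0
      refine ⟨fun h => c h⁻¹, ?_, ?_⟩
      · intro h hh
        obtain ⟨h', hh', rfl⟩ := Finset.mem_image.1 hh
        beta_reduce
        rw [inv_inv]
        have h9 := hc2 (ε / (K + 1)) (by positivity) ?_ h' hh'
        · refine h9.trans ?_
          rw [mul_div_assoc', div_le_iff₀ (by linarith)]
          nlinarith
        · intro y hy
          have h10 := hN y n ((Finset.le_sup hy).trans hn)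
          have h11 : μ⁻¹ ^ n * Δ (y * g ^ n * t) - Δ y * Δ t =
              μ⁻¹ ^ n * (Δ (y * g ^ n * t) - μ ^ n * (Δ y * Δ t)) := by
            rw [inv_pow]
            field_simp
          rw [h11, map_mul, map_pow, map_inv₀, inv_pow]
          rw [inv_mul_le_iff₀ (by positivity)]
          linarith
      · intro y
        have h12 := hc1 y
        rw [hsumH] at h12
        rw [← h12, inv_pow]
        field_simp
        ring

end Pool.Agent.Lin52
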