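import Pool.Agent.Helper52_Lin.Stmts

set_option autoImplicit false

open Pool.Agent.Helper34_Synd

namespace Pool.Agent.Lin52

/-- the final statement in its strongest form -/
theorem strong.{u, w} (hZ : FinStmt.{u, w}) (hQ : QuoStmt.{u}) (G : Type u) [Group G]
    (h : ∀ K : Subgroup G, K.FiniteIndex → ∃ (F : Type w) (_ : Field F) (n : ℕ)
      (ρ : G →* Matrix.GeneralLinearGroup (Fin n) F), ¬ K ≤ ρ.ker) :
    HasSyndeticSubmeasure G := by
  classical
  by_cases hinf : ∃ (F : Type w) (_ : Field F) (n : ℕ)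
      (ρ : G →* Matrix.GeneralLinearGroup (Fin n) F), (Set.range ρ).Infinite
  · obtain ⟨F, _, n, ρ, hρ⟩ := hinf
    apply hZ G
    intro N
    refine ⟨F, inferInstance, n, ρ, ?_⟩
    obtain ⟨t, ht, htN⟩ := hρ.exists_subset_card_eq N
    choose! s hs using fun x (hx : x ∈ t) => ht hx
    refine ⟨t.image s, ?_, ?_⟩
    · rw [Finset.card_image_of_injOn, htN]
      intro x hx y hy hxy
      rw [← hs x hx, ← hs y hy, hxy]
    · intro x hx y hy hxy
      rw [Finset.coe_image] at hx hy
      obtain ⟨a, ha, rfl⟩ := hx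
      obtain ⟨b, hb, rfl⟩ := hy
      rw [hs a ha, hs b hb] at hxy
      rw [hxy]
  · apply hasSyndeticSubmeasure_of_good'
    apply hQ G
    have hfin : ∀ (F : Type w) (_ : Field F) (n : ℕ)
        (ρ : G →* Matrix.GeneralLinearGroup (Fin n) F), ρ.ker.FiniteIndex := by
      intro F _ n ρ
      have h1 : ¬ (Set.range ρ).Infinite := fun h2 => hinf ⟨F, _, n, ρ, h2⟩
      rw [Set.not_infinite] at h1
      have h3 : Finite ρ.range := h1
      exact Subgroup.finiteIndex_ker ρ
    intro N
    induction N with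
    | zero => exact ⟨⊤, inferInstance, inferInstance, Nat.zero_le _⟩
    | succ N ih =>
      obtain ⟨K, hK1, hK2, hK3⟩ := ih
      obtain ⟨F, _, n, ρ, hρ⟩ := h K hK2
      have h4 := hfin F inferInstance n ρ
      refine ⟨K ⊓ ρ.ker, inferInstance, inferInstance, ?_⟩
      have h5 : K ⊓ ρ.ker < K := by
        refine lt_of_le_of_ne inf_le_left fun h6 => hρ ?_
        rw [← h6]
        exact inf_le_right
      have h6 : K.index < (K ⊓ ρ.ker).index := by
        have h7 := Subgroup.relIndex_mul_index (inf_le_left : K ⊓ ρ.ker ≤ K)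
        have h8 : (K ⊓ ρ.ker).relIndex K ≠ 1 := by
          intro h9
          rw [Subgroup.relIndex_eq_one] at h9
          exact absurd h9 (not_le_of_gt h5)
        have h10 : (K ⊓ ρ.ker).index ≠ 0 := Subgroup.FiniteIndex.index_ne_zero
        have h11 : (K ⊓ ρ.ker).relIndex K ≠ 0 := by
          intro h12
          rw [h12, zero_mul] at h7
          exact h10 h7.symm
        have h13 : K.index ≠ 0 := hK2.index_ne_zero
        rw [← h7]
        have h14 : 2 ≤ (K ⊓ ρ.ker).relIndex K := by omega
        nlinarith [Nat.pos_of_ne_zero h13]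
      omega

end Pool.Agent.Lin52
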