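import Mathlib

set_option autoImplicit false

open Module

namespace Pool.Agent.Lin52

section

variable {F V ι : Type*} [Field F] [AddCommGroup V] [Module F V] [Fintype ι]
  (v : AbsoluteValue F ℝ) (e : Basis ι F V)

/-- coordinate norm -/
noncomputable def cn (x : V) : ℝ := ∑ k, v (e.repr x k)

theorem cn_nonneg (x : V) : 0 ≤ cn v e x := Finset.sum_nonneg fun _ _ => v.nonneg _

theorem cn_add (x y : V) : cn v e (x + y) ≤ cn v e x + cn v e y := by
  unfold cn
  rw [← Finset.sum_add_distrib]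
  refine Finset.sum_le_sum fun k _ => ?_
  rw [map_add]
  exact v.add_le _ _

theorem cn_smul (c : F) (x : V) : cn v e (c • x) = v c * cn v e x := by
  unfold cn
  rw [Finset.mul_sum]
  refine Finset.sum_congr rfl fun k _ => ?_
  rw [map_smul, Finsupp.smul_apply, smul_eq_mul, map_mul]

theorem cn_zero : cn v e (0 : V) = 0 := by simp [cn]

theorem cn_sum {κ : Type*} (s : Finset κ) (x : κ → V) :
    cn v e (∑ i ∈ s, x i) ≤ ∑ i ∈ s, cn v e (x i) := by
  classical
  induction s using Finset.induction_on with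
  | empty => simp [cn_zero]
  | insert a s ha ih =>
    rw [Finset.sum_insert ha, Finset.sum_insert ha]
    exact (cn_add v e _ _).trans (by linarith)

/-- multilinear forms are bounded -/
theorem multilinear_bound {j : ℕ} (A : MultilinearMap F (fun _ : Fin j => V) F) :
    ∃ C : ℝ, 0 ≤ C ∧ ∀ x : Fin j → V, v (A x) ≤ C * ∏ i, cn v e (x i) := by
  classical
  refine ⟨∑ κ : Fin j → ι, v (A fun i => e (κ i)), Finset.sum_nonneg fun _ _ => v.nonneg _,
    fun x => ?_⟩
  have h1 : A x = ∑ κ : Fin j → ι, (∏ i, e.repr (x i) (κ i)) * A fun i => e (κ i) := by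
    have h2 : x = fun i => ∑ k, e.repr (x i) k • e k := by
      funext i
      exact (e.sum_repr (x i)).symm
    conv_lhs => rw [h2]
    rw [A.map_sum]
    refine Finset.sum_congr rfl fun κ _ => ?_
    rw [A.map_smul_univ (fun i => e.repr (x i) (κ i)) (fun i => e (κ i)), smul_eq_mul]
  rw [h1]
  refine (v.sum_le _ _).trans ?_
  rw [Finset.sum_mul]
  refine Finset.sum_le_sum fun κ _ => ?_
  rw [map_mul, mul_comm, map_prod]
  refine mul_le_mul_of_nonneg_left ?_ (v.nonneg _)
  refine Finset.prod_le_prod (fun _ _ => v.nonneg _) fun i _ => ?_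
  exact Finset.single_le_sum (f := fun k => v (e.repr (x i) k)) (fun _ _ => v.nonneg _)
    (Finset.mem_univ _)

/-- vectors on which the powers of `f` grow at most like `a ^ n` -/
def gr (f : End F V) (a : ℝ) : Submodule F V where
  carrier := {x | ∃ C : ℝ, 0 ≤ C ∧ ∀ n : ℕ, cn v e ((f ^ n) x) ≤ C * a ^ n}
  zero_mem' := ⟨0, le_rfl, fun n => by rw [map_zero, cn_zero, zero_mul]⟩
  add_mem' := by
    rintro x y ⟨C, hC, hx⟩ ⟨D, hD, hy⟩
    refine ⟨C + D, add_nonneg hC hD, fun n => ?_⟩
    rw [map_add, add_mul]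
    exact (cn_add v e _ _).trans (add_le_add (hx n) (hy n))
  smul_mem' := by
    rintro c x ⟨C, hC, hx⟩
    refine ⟨v c * C, mul_nonneg (v.nonneg _) hC, fun n => ?_⟩
    rw [map_smul, cn_smul, mul_assoc]
    exact mul_le_mul_of_nonneg_left (hx n) (v.nonneg _)

theorem mem_gr {f : End F V} {a : ℝ} {x : V} :
    x ∈ gr v e f a ↔ ∃ C : ℝ, 0 ≤ C ∧ ∀ n : ℕ, cn v e ((f ^ n) x) ≤ C * a ^ n := Iff.rfl

theorem maxGenEigenspace_le_gr (hv : IsNonarchimedean v) (f : End F V) (β : F) (a : ℝ)
    (ha : 0 < a) (hβ : v β ≤ a) : f.maxGenEigenspace β ≤ gr v e f a := by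
  intro x hx
  rw [Module.End.mem_maxGenEigenspace] at hx
  obtain ⟨m, hm⟩ := hx
  set g : End F V := f - β • 1 with hg
  refine ⟨∑ k ∈ Finset.range m, a⁻¹ ^ k * cn v e ((g ^ k) x), ?_, fun n => ?_⟩
  · exact Finset.sum_nonneg fun k _ => mul_nonneg (by positivity) (cn_nonneg _ _ _)
  have hf : f = g + β • 1 := by rw [hg]; abel
  have hcomm : Commute g (β • (1 : End F V)) := by
    rw [commute_iff_eq]
    simp
  have hpow : (f ^ n) x = ∑ k ∈ Finset.range (n + 1), ((n.choose k : F) * β ^ (n - k)) • (g ^ k) x := by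
    rw [hf, hcomm.add_pow, LinearMap.sum_apply]
    refine Finset.sum_congr rfl fun k _ => ?_
    rw [smul_pow, one_pow, Algebra.mul_smul_comm, mul_one, ← nsmul_eq_mul', LinearMap.smul_apply,
      LinearMap.smul_apply, mul_smul, Nat.cast_smul_eq_nsmul]
  rw [hpow]
  refine (cn_sum v e _ _).trans ?_
  have h1 : ∀ k ∈ Finset.range (n + 1), cn v e (((n.choose k : F) * β ^ (n - k)) • (g ^ k) x) ≤
      if k < m then (a⁻¹ ^ k * cn v e ((g ^ k) x)) * a ^ n else 0 := by
    intro k hk
    split_ifs with hkm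
    · rw [cn_smul, map_mul, map_pow]
      have h2 : v (n.choose k : F) ≤ 1 := hv.apply_natCast_le_one
      have h3 : v β ^ (n - k) ≤ a ^ (n - k) := pow_le_pow_left₀ (v.nonneg _) hβ _
      have h4 : a ^ (n - k) = a⁻¹ ^ k * a ^ n := by
        rw [Finset.mem_range] at hk
        have : a ^ n = a ^ (n - k) * a ^ k := by rw [← pow_add]; congr 1; omega
        rw [this, inv_pow]
        field_simp
      calc v (n.choose k : F) * v β ^ (n - k) * cn v e ((g ^ k) x)
          ≤ 1 * a ^ (n - k) * cn v e ((g ^ k) x) := by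
            apply mul_le_mul_of_nonneg_right _ (cn_nonneg _ _ _)
            exact mul_le_mul h2 h3 (by positivity) zero_le_one
        _ = (a⁻¹ ^ k * cn v e ((g ^ k) x)) * a ^ n := by rw [h4]; ring
    · have h5 : (g ^ k) x = 0 := by
        obtain ⟨l, rfl⟩ := Nat.exists_eq_add_of_le (not_lt.1 hkm)
        rw [add_comm, pow_add, Module.End.mul_apply, hm, map_zero]
      rw [h5, smul_zero, cn_zero]
  refine (Finset.sum_le_sum h1).trans ?_
  rw [← Finset.sum_filter, Finset.sum_mul]
  apply Finset.sum_le_sum_of_subset_of_nonneg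
  · intro k hk
    rw [Finset.mem_filter] at hk
    exact Finset.mem_range.2 hk.2
  · intro k _ _
    exact mul_nonneg (mul_nonneg (by positivity) (cn_nonneg _ _ _)) (by positivity)

end

end Pool.Agent.Lin52
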